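import Pool.Agent.Q3.FFKr.Main

/-!
# MP_05fa0d_nt: digital Kronecker - van der Corput sequences for `Θ ∈ Bad(P, q)`
-/

set_option autoImplicit false

open Polynomial Set

namespace Pool.Agent.Results.MP_05fa0d_nt.LowDiscrepancy

variable {F : Type} [Field F] [Fintype F]

/-- The polynomial `n(t) = ∑ E⁻¹(d_i) t^i`, where `n = ∑ d_i q^i` in base `q = |F|`
(`d_i = ⌊n / q^i⌋ mod q`). -/
noncomputable def nPoly (E : F ≃ Fin (Fintype.card F)) (n : ℕ) : F[X] :=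
  ∑ i ∈ Finset.range (n + 1), monomial i
    (E.symm ⟨n / Fintype.card F ^ i % Fintype.card F, Nat.mod_lt _ Fintype.card_pos⟩)

/-- A formal Laurent series `Θ = ∑ a_k t^{-k}` is given by its coefficients `a : ℤ → F`. The
coefficient of `t^{-k}` in the product `b Θ` with a polynomial `b = ∑ b_l t^l` is
`∑ b_l a_{k+l}`. -/
noncomputable def mulSeries (b : F[X]) (a : ℤ → F) : ℤ → F :=
  fun k => ∑ l ∈ Finset.range (b.natDegree + 1), b.coeff l * a (k + l)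

open Classical in
/-- `|⟨Ψ⟩|`: it is `q^{-k}` for the least `k ≥ 1` with `a_k ≠ 0`, and `0` if there is none. -/
noncomputable def fracAbs (a : ℤ → F) : ℝ :=
  if ∃ k : ℕ, 1 ≤ k ∧ a k ≠ 0 then
    ((Fintype.card F : ℝ) ^ (sInf {k : ℕ | 1 ≤ k ∧ a k ≠ 0}))⁻¹ else 0

/-- `Θ ∈ Bad(P, q)`: `a` is the coefficient function of a Laurent series in `t⁻¹` and the infimum
of `|N| |⟨N P^k Θ⟩|` over the non-zero polynomials `N` and `k ≥ 0` is positive. -/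
def Bad (P : F[X]) (a : ℤ → F) : Prop :=
  (∃ h : ℤ, ∀ k < h, a k = 0) ∧
  0 < ⨅ x : {N : F[X] // N ≠ 0} × ℕ,
    (Fintype.card F : ℝ) ^ (x.1.1.natDegree) * fracAbs (mulSeries (x.1.1 * P ^ x.2) a)

/-- The digital Kronecker sequence `K_n(Θ) = ev_q(⟨n(t) Θ⟩)`. -/
noncomputable def kron (E : F ≃ Fin (Fintype.card F)) (a : ℤ → F) (n : ℕ) : ℝ :=
  ∑' i : ℕ, ((E (mulSeries (nPoly E n) a ((i : ℤ) + 1)) : ℕ) : ℝ) / (Fintype.card F : ℝ) ^ (i + 1)

/-- `ev_q(b) = ∑ E(c_j) q^j` for a polynomial `b = ∑ c_j t^j` of degree less than `e`. -/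
def evPoly (E : F ≃ Fin (Fintype.card F)) (e : ℕ) (b : F[X]) : ℕ :=
  ∑ j ∈ Finset.range e, (E (b.coeff j) : ℕ) * Fintype.card F ^ j

/-- The digital van der Corput sequence `V_n(P) = ∑ ev_q(b_i) / |P|^{i+1}`, where
`n(t) = ∑ b_i P^i` with `deg b_i < deg P`, that is `b_i = ⌊n(t) / P^i⌋ mod P`. -/
noncomputable def vdc (E : F ≃ Fin (Fintype.card F)) (P : F[X]) (n : ℕ) : ℝ :=
  ∑' i : ℕ, (evPoly E P.natDegree ((nPoly E n / P ^ i) % P) : ℝ) /
    ((Fintype.card F : ℝ) ^ P.natDegree) ^ (i + 1)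

/-- The star discrepancy of the first `N` points of the hybrid sequence `(K_n(Θ), V_n(P))`. -/
noncomputable def discrepancy (E : F ≃ Fin (Fintype.card F)) (P : F[X]) (a : ℤ → F) (N : ℕ) : ℝ :=
  sSup {d : ℝ | ∃ γ lam : ℝ, 0 ≤ γ ∧ γ ≤ 1 ∧ 0 ≤ lam ∧ lam ≤ 1 ∧
    d = |1 / (N : ℝ) * (((Finset.range N).filter
      (fun n => kron E a n ∈ Ico 0 γ ∧ vdc E P n ∈ Ico 0 lam)).card : ℝ) - γ * lam|}

theorem exists_badC {P : F[X]} {a : ℤ → F} (h : Bad P a) : ∃ c0, Pool.Agent.Q3.FFKr.BadC P a c0 := by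
  classical
  have hq2 : 2 ≤ Fintype.card F := Fintype.one_lt_card
  have hqr : (1 : ℝ) < Fintype.card F := by exact_mod_cast (show 1 < Fintype.card F by omega)
  obtain ⟨-, hpos⟩ := h
  obtain ⟨c, hc⟩ : ∃ c, c = ⨅ x : {N : F[X] // N ≠ 0} × ℕ,
    (Fintype.card F : ℝ) ^ (x.1.1.natDegree) * fracAbs (mulSeries (x.1.1 * P ^ x.2) a) := ⟨_, rfl⟩
  rw [← hc] at hpos
  have hnn : ∀ b : ℤ → F, 0 ≤ fracAbs b := by
    intro b; unfold fracAbs; split_ifs <;> positivity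
  have hbdd : BddBelow (Set.range fun x : {N : F[X] // N ≠ 0} × ℕ =>
      (Fintype.card F : ℝ) ^ (x.1.1.natDegree) * fracAbs (mulSeries (x.1.1 * P ^ x.2) a)) := by
    refine ⟨0, ?_⟩
    rintro _ ⟨x, rfl⟩
    exact mul_nonneg (by positivity) (hnn _)
  have hle : ∀ (N : F[X]) (hN : N ≠ 0) (i : ℕ),
      c ≤ (Fintype.card F : ℝ) ^ N.natDegree * fracAbs (mulSeries (N * P ^ i) a) := by
    intro N hN i
    rw [hc]
    exact ciInf_le hbdd (⟨⟨N, hN⟩, i⟩ : {N : F[X] // N ≠ 0} × ℕ)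
  obtain ⟨c0, hc0⟩ := pow_unbounded_of_one_lt (1 / c) hqr
  rw [div_lt_iff₀ hpos] at hc0
  refine ⟨c0, fun i N hN => ?_⟩
  have h1 := hle N hN i
  have h2 : ∃ k : ℕ, 1 ≤ k ∧ mulSeries (N * P ^ i) a k ≠ 0 := by
    by_contra hno
    unfold fracAbs at h1
    rw [if_neg hno, mul_zero] at h1
    exact absurd hpos (not_lt.2 h1)
  obtain ⟨k, hk⟩ : ∃ k, k = sInf {k : ℕ | 1 ≤ k ∧ mulSeries (N * P ^ i) a k ≠ 0} := ⟨_, rfl⟩
  have hkm : 1 ≤ k ∧ mulSeries (N * P ^ i) a k ≠ 0 := by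
    rw [hk]
    exact Nat.sInf_mem (s := {k : ℕ | 1 ≤ k ∧ mulSeries (N * P ^ i) a k ≠ 0}) h2
  unfold fracAbs at h1
  rw [if_pos h2, ← hk] at h1
  have hkle : k ≤ N.natDegree + c0 := by
    by_contra hgt
    push Not at hgt
    have hp : (0 : ℝ) < (Fintype.card F : ℝ) ^ k := by positivity
    rw [← div_eq_mul_inv, le_div_iff₀ hp] at h1
    have h3 : (Fintype.card F : ℝ) ^ (N.natDegree + c0) ≤ (Fintype.card F : ℝ) ^ k :=
      pow_le_pow_right₀ hqr.le hgt.le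
    rw [pow_add] at h3
    have h4 : (0 : ℝ) < (Fintype.card F : ℝ) ^ N.natDegree := by positivity
    nlinarith [mul_le_mul_of_nonneg_left h3 hpos.le, mul_lt_mul_of_pos_left hc0 h4]
  refine ⟨k - 1, by omega, ?_⟩
  have h5 : (((k - 1 : ℕ) : ℤ) + 1) = (k : ℤ) := by omega
  rw [h5]
  exact hkm.2

/-- Let `F` be a finite field with `q` elements, `E : F → {0, …, q - 1}` a bijection with
`E 0 = 0`, `P ∈ F[t]` irreducible and `Θ ∈ Bad(P, q)`. Then the hybrid sequence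
`(K_n(Θ), V_n(P))_{n ≥ 0}` is low discrepancy: `D_N ≤ C (log N)² / N` for all `N ≥ 2`. -/
theorem result (E : F ≃ Fin (Fintype.card F)) (hE : (E 0 : ℕ) = 0) (P : F[X]) (hP : Irreducible P)
    (a : ℤ → F) (ha : Bad P a) :
    ∃ C : ℝ, ∀ N : ℕ, 2 ≤ N → discrepancy E P a N ≤ C * Real.log N ^ 2 / N := by
  classical
  obtain ⟨c0, hc0⟩ := exists_badC ha
  refine ⟨(((Fintype.card F : ℝ) ^ P.natDegree + 1) *
      ((2 * (Fintype.card F : ℝ) ^ c0 + 1) * Fintype.card F) + 2) * 9, fun N hN => ?_⟩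
  have hN0 : (0 : ℝ) < N := by exact_mod_cast (show 0 < N by omega)
  have hK : ∀ n, kron E a n = Pool.Agent.Q3.FFKr.KK E a (Pool.Agent.Q3.FFKr.np E n) := by
    intro n
    unfold kron Pool.Agent.Q3.FFKr.KK Pool.Agent.Q3.CantorS.val
    refine tsum_congr fun i => ?_
    rw [Pool.Agent.Q3.FFKr.D_const]
    push_cast
    rfl
  have hV : ∀ n, vdc E P n = Pool.Agent.Q3.FFKr.VV E P (Pool.Agent.Q3.FFKr.np E n) := by
    intro n
    unfold vdc Pool.Agent.Q3.FFKr.VV Pool.Agent.Q3.CantorS.val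
    refine tsum_congr fun i => ?_
    rw [Pool.Agent.Q3.FFKr.D_const]
    push_cast
    rfl
  have hKn : ∀ n, 0 ≤ kron E a n := fun n => tsum_nonneg fun i => by positivity
  have hVn : ∀ n, 0 ≤ vdc E P n := fun n => tsum_nonneg fun i => by positivity
  refine Real.sSup_le ?_ (by positivity)
  rintro d ⟨γ, lam, h0, h1, g0, g1, rfl⟩
  have h := Pool.Agent.Q3.FFKr.box_count E hE hP.ne_zero hP.natDegree_pos hc0 γ lam h0 h1 g0 g1 N hN
  have hfil : (Finset.range N).filter (fun n => kron E a n ∈ Ico 0 γ ∧ vdc E P n ∈ Ico 0 lam) =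
      (Finset.range N).filter (fun n => Pool.Agent.Q3.FFKr.KK E a (Pool.Agent.Q3.FFKr.np E n) < γ ∧
        Pool.Agent.Q3.FFKr.VV E P (Pool.Agent.Q3.FFKr.np E n) < lam) := by
    ext n
    simp only [Finset.mem_filter, mem_Ico]
    rw [← hK, ← hV]
    constructor
    · rintro ⟨a1, ⟨_, a2⟩, _, a3⟩; exact ⟨a1, a2, a3⟩
    · rintro ⟨a1, a2, a3⟩; exact ⟨a1, ⟨hKn n, a2⟩, hVn n, a3⟩
  rw [hfil, le_div_iff₀ hN0]
  have e1 : |1 / (N : ℝ) * (((Finset.range N).filter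
      (fun n => Pool.Agent.Q3.FFKr.KK E a (Pool.Agent.Q3.FFKr.np E n) < γ ∧
        Pool.Agent.Q3.FFKr.VV E P (Pool.Agent.Q3.FFKr.np E n) < lam)).card : ℝ) - γ * lam| * N =
      |(((Finset.range N).filter
      (fun n => Pool.Agent.Q3.FFKr.KK E a (Pool.Agent.Q3.FFKr.np E n) < γ ∧
        Pool.Agent.Q3.FFKr.VV E P (Pool.Agent.Q3.FFKr.np E n) < lam)).card : ℝ) - γ * lam * N| := by
    rw [← abs_of_pos hN0, ← abs_mul, abs_of_pos hN0]
    congr 1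
    field_simp
  rw [e1]
  exact h

end Pool.Agent.Results.MP_05fa0d_nt.LowDiscrepancy
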